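import Pool.Agent.Q284.GE.Stm

/-! # Project GE of helper284: job RPW, the part of the prime powers -/

set_option autoImplicit false

namespace Pool.Agent.Q14.GE

open Finset ComplexConjugate
open Polynomial hiding eta
open Pool.Agent.H341R2.Sharp (Mon mem_Mon)
open Pool.Agent.Q284.PS (Prim Hay CM PD PI qq)
open Pool.Agent.Q284.GE

section

variable {F : Type} [Field F] [Fintype F]

theorem two_le_qq : (2 : ℝ) ≤ qq F := by
  unfold qq
  have : 2 ≤ Fintype.card F := Fintype.one_lt_card
  exact_mod_cast this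

theorem mem_PD {k : ℕ} {P : F[X]} :
    P ∈ PD F k ↔ (P.Monic ∧ P.natDegree ≤ k) ∧ Irreducible P ∧ P.natDegree ∣ k := by
  classical
  unfold PD
  rw [mem_filter, mem_biUnion]
  constructor
  · rintro ⟨⟨n, hn, hP⟩, h⟩
    rw [mem_range] at hn
    rw [mem_Mon] at hP
    exact ⟨⟨hP.1, by omega⟩, h⟩
  · rintro ⟨⟨h1, h2⟩, h⟩
    exact ⟨⟨P.natDegree, by rw [mem_range]; omega, mem_Mon.2 ⟨h1, rfl⟩⟩, h⟩

theorem mem_PI {k : ℕ} {P : F[X]} : P ∈ PI F k ↔ (P.Monic ∧ P.natDegree = k) ∧ Irreducible P := by
  classical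
  unfold PI
  rw [mem_filter, mem_Mon]

theorem sqrt_pow (m : ℕ) : Real.sqrt (qq F) ^ m = qq F ^ ((m : ℝ) / 2) := by
  have h : (0 : ℝ) ≤ qq F := by linarith [two_le_qq (F := F)]
  rw [Real.sqrt_eq_rpow, ← Real.rpow_natCast, ← Real.rpow_mul h]
  congr 1
  ring

end

theorem t_RPW (hPLB : S_PLB) : S_RPW := by
  intro r₀ B ϑ K hPar F _ _ ι p hLoc ν M hν hM hal a m hm ha i χ hχ
  classical
  have hq2 := two_le_qq (F := F)
  set q : ℝ := qq F with hq
  have hq1 : 1 ≤ q := by linarith
  have hq0 : 0 < q := by linarith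
  have hB := hPar.B0
  set κ := kap ϑ K with hκ
  have hκ1 : κ ≤ 1 / 36 := min_le_left _ _
  have hκ2 : κ ≤ 1 / 2 - ϑ - 1 / K := min_le_right _ _
  have hK0 : (0 : ℝ) < K := by
    have := hPar.K3
    exact_mod_cast (by omega : 0 < K)
  have hνr : (9 : ℝ) ≤ ν := by exact_mod_cast hν
  have hη1 : 1 / 18 ≤ eta ν := by
    unfold eta
    have h1 : 4 / (ν : ℝ) ≤ 4 / 9 := div_le_div_of_nonneg_left (by norm_num) (by norm_num) hνr
    linarith
  have hη2 : eta ν ≤ 1 / 2 := by
    unfold eta
    have h1 : 0 ≤ 4 / (ν : ℝ) := by positivity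
    linarith
  have hmr : (1 : ℝ) ≤ m := by exact_mod_cast hm
  set X : ℝ := (24 * B * m * q ^ (3 - (M : ℝ) - κ * m) + B * q ^ (-(κ * m))) * Real.sqrt q ^ m with hX
  have hX0 : 0 ≤ X := by rw [hX]; positivity
  -- the bound for one prime
  have key : ∀ P ∈ (PD F m).filter (fun P => P.natDegree < m), q ^ P.natDegree *
      |p i P (a P) (m / P.natDegree)| ≤ X := by
    intro P hP
    rw [mem_filter, mem_PD] at hP
    obtain ⟨⟨⟨hmon, -⟩, hirr, hdvd⟩, hlt⟩ := hP
    have hd1 : 1 ≤ P.natDegree := hirr.natDegree_pos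
    obtain ⟨d, hd⟩ : ∃ d, d = P.natDegree := ⟨_, rfl⟩
    rw [← hd] at hd1 hlt hdvd ⊢
    obtain ⟨k, hk⟩ := hdvd
    have hkk : m / d = k := by rw [hk]; exact Nat.mul_div_cancel_left k (by omega)
    have hk2 : 2 ≤ k := by
      by_contra hcon
      have : k = 0 ∨ k = 1 := by omega
      rcases this with rfl | rfl <;> omega
    rw [hkk]
    have hdr : (1 : ℝ) ≤ d := by exact_mod_cast hd1
    have hmk : (m : ℝ) = d * k := by exact_mod_cast hk
    have hk2r : (2 : ℝ) ≤ k := by exact_mod_cast hk2
    have hdm : (d : ℝ) ≤ m / 2 := by rw [hmk]; nlinarith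
    have haP : ∀ j, |a P j| ≤ al q ν M d := by
      intro j
      have := ha P j hmon hirr (by omega)
      rwa [← hd] at this
    have halr := hal d hd1
    have hsq : Real.sqrt q ^ m = q ^ ((m : ℝ) / 2) := sqrt_pow m
    rcases lt_or_ge k K with hkK | hkK
    · have h1 := hLoc.mid i P (a P) k (al q ν M d) hmon hirr halr haP hk2 hkK
      have h2 : al q ν M d ≤ 48 * d * q ^ (3 - (M : ℝ) - eta ν * d) := by
        unfold al
        split_ifs
        · exact le_rfl
        · positivity
      calc q ^ d * |p i P (a P) k| ≤ q ^ d * (B * (48 * d * q ^ (3 - (M : ℝ) - eta ν * d))) := by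
            apply mul_le_mul_of_nonneg_left _ (by positivity)
            exact h1.trans (mul_le_mul_of_nonneg_left h2 hB)
        _ = 48 * B * d * q ^ (3 - (M : ℝ) + (1 - eta ν) * d) := by
            rw [← Real.rpow_natCast q d]
            have e1 : q ^ (3 - (M : ℝ) + (1 - eta ν) * d) = q ^ (d : ℝ) * q ^ (3 - (M : ℝ) - eta ν * d) := by
              rw [← Real.rpow_add hq0]
              congr 1
              ring
            rw [e1]
            ring
        _ ≤ 24 * B * m * q ^ (3 - (M : ℝ) - κ * m + m / 2) := by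
            have h3 : q ^ (3 - (M : ℝ) + (1 - eta ν) * d) ≤ q ^ (3 - (M : ℝ) - κ * m + m / 2) := by
              apply Real.rpow_le_rpow_of_exponent_le hq1
              have h4 : (1 - eta ν) * d ≤ (1 - eta ν) * (m / 2) := mul_le_mul_of_nonneg_left hdm (by linarith)
              have h5 : (1 - eta ν) * ((m : ℝ) / 2) ≤ (1 - 1 / 18) * (m / 2) :=
                mul_le_mul_of_nonneg_right (by linarith) (by linarith)
              have h6 : κ * m ≤ 1 / 36 * m := mul_le_mul_of_nonneg_right hκ1 (by linarith)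
              linarith
            have h4 : 48 * B * d ≤ 24 * B * m := by nlinarith
            exact mul_le_mul h4 h3 (by positivity) (by positivity)
        _ = 24 * B * m * q ^ (3 - (M : ℝ) - κ * m) * Real.sqrt q ^ m := by
            rw [hsq, Real.rpow_add hq0]
            ring
        _ ≤ X := by
            rw [hX]
            apply mul_le_mul_of_nonneg_right _ (by positivity)
            have : 0 ≤ B * q ^ (-(κ * m)) := by positivity
            linarith
    · have h1 := hLoc.all i P (a P) k hmon hirr (fun j => (haP j).trans halr) (by omega)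
      rw [← hd, ← hq] at h1
      have hkd : ((k : ℝ) * d) = m := by rw [hmk]; ring
      rw [hkd] at h1
      have hKk : (K : ℝ) ≤ k := by exact_mod_cast hkK
      have hdK : (d : ℝ) ≤ m / K := by
        rw [le_div_iff₀ hK0, hmk]
        exact mul_le_mul_of_nonneg_left hKk (by linarith)
      calc q ^ d * |p i P (a P) k| ≤ q ^ d * (B * q ^ (ϑ * m)) :=
            mul_le_mul_of_nonneg_left h1 (by positivity)
        _ = B * q ^ ((d : ℝ) + ϑ * m) := by
            rw [← Real.rpow_natCast q d, Real.rpow_add hq0]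
            ring
        _ ≤ B * q ^ (-(κ * m) + m / 2) := by
            apply mul_le_mul_of_nonneg_left _ hB
            apply Real.rpow_le_rpow_of_exponent_le hq1
            have h2 : κ * m ≤ (1 / 2 - ϑ - 1 / K) * m := mul_le_mul_of_nonneg_right hκ2 (by linarith)
            have h3 : (1 / 2 - ϑ - 1 / K) * (m : ℝ) = m / 2 - ϑ * m - m / K := by ring
            linarith
        _ = B * q ^ (-(κ * m)) * Real.sqrt q ^ m := by
            rw [hsq, Real.rpow_add hq0]
            ring
        _ ≤ X := by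
            rw [hX]
            apply mul_le_mul_of_nonneg_right _ (by positivity)
            have : 0 ≤ 24 * B * m * q ^ (3 - (M : ℝ) - κ * m) := by positivity
            linarith
  -- the sum
  have hnorm : ‖pw p a i χ m‖ ≤ ∑ P ∈ (PD F m).filter (fun P => P.natDegree < m),
      (P.natDegree : ℝ) * |p i P (a P) (m / P.natDegree)| := by
    unfold pw
    refine (norm_sum_le _ _).trans (sum_le_sum fun P _ => ?_)
    rw [norm_mul, norm_mul, norm_pow, Complex.norm_natCast, Complex.norm_real, Real.norm_eq_abs]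
    have h1 : ‖χ P‖ ^ (m / P.natDegree) ≤ 1 := pow_le_one₀ (norm_nonneg _) (hχ P)
    calc (P.natDegree : ℝ) * |p i P (a P) (m / P.natDegree)| * ‖χ P‖ ^ (m / P.natDegree) ≤
        (P.natDegree : ℝ) * |p i P (a P) (m / P.natDegree)| * 1 :=
          mul_le_mul_of_nonneg_left h1 (by positivity)
      _ = _ := mul_one _
  refine hnorm.trans ?_
  have hfib : ∑ P ∈ (PD F m).filter (fun P => P.natDegree < m),
      (P.natDegree : ℝ) * |p i P (a P) (m / P.natDegree)| =
      ∑ d ∈ range m, ∑ P ∈ ((PD F m).filter (fun P => P.natDegree < m)).filter (fun P => P.natDegree = d),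
        (P.natDegree : ℝ) * |p i P (a P) (m / P.natDegree)| := by
    rw [sum_fiberwise_of_maps_to]
    intro P hP
    rw [mem_filter] at hP
    rw [mem_range]
    exact hP.2
  rw [hfib]
  have hd : ∀ d ∈ range m, ∑ P ∈ ((PD F m).filter (fun P => P.natDegree < m)).filter (fun P => P.natDegree = d),
        (P.natDegree : ℝ) * |p i P (a P) (m / P.natDegree)| ≤ X := by
    intro d _
    rcases Nat.eq_zero_or_pos d with rfl | hdpos
    · refine le_trans (le_of_eq ?_) hX0
      apply sum_eq_zero
      intro P hP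
      rw [mem_filter] at hP
      rw [hP.2, Nat.cast_zero, zero_mul]
    · have hqd : (0 : ℝ) < q ^ d := by positivity
      have h1 : ∀ P ∈ ((PD F m).filter (fun P => P.natDegree < m)).filter (fun P => P.natDegree = d),
          (P.natDegree : ℝ) * |p i P (a P) (m / P.natDegree)| ≤ d * (X / q ^ d) := by
        intro P hP
        rw [mem_filter] at hP
        have h2 := key P hP.1
        rw [hP.2] at h2 ⊢
        apply mul_le_mul_of_nonneg_left _ (Nat.cast_nonneg _)
        rw [le_div_iff₀ hqd]
        linarith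
      refine (sum_le_sum h1).trans ?_
      rw [sum_const, nsmul_eq_mul]
      have h2 : (((PD F m).filter (fun P => P.natDegree < m)).filter (fun P => P.natDegree = d)).card ≤
          (PI F d).card := by
        apply card_le_card
        intro P hP
        rw [mem_filter, mem_filter, mem_PD] at hP
        rw [mem_PI]
        exact ⟨⟨hP.1.1.1.1, hP.2⟩, hP.1.1.2.1⟩
      have h3 : ((((PD F m).filter (fun P => P.natDegree < m)).filter (fun P => P.natDegree = d)).card : ℝ) ≤
          (PI F d).card := by exact_mod_cast h2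
      have h4 := (hPLB F d hdpos).1
      have h5 : (d : ℝ) * (PI F d).card ≤ q ^ d := by
        rw [hq]
        unfold qq
        exact_mod_cast h4
      calc _ ≤ ((PI F d).card : ℝ) * (d * (X / q ^ d)) := mul_le_mul_of_nonneg_right h3 (by positivity)
        _ = ((d : ℝ) * (PI F d).card) * (X / q ^ d) := by ring
        _ ≤ q ^ d * (X / q ^ d) := mul_le_mul_of_nonneg_right h5 (by positivity)
        _ = X := by field_simp
  refine (sum_le_sum hd).trans ?_
  rw [sum_const, card_range, nsmul_eq_mul, hX]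
  unfold Rm
  have h6 : 0 ≤ B * (m : ℝ) ^ 2 * q ^ (3 - (M : ℝ) - κ * m) := by positivity
  have e1 : (m : ℝ) * ((24 * B * m * q ^ (3 - (M : ℝ) - κ * m) + B * q ^ (-(κ * m))) * Real.sqrt q ^ m) =
      (24 * (B * (m : ℝ) ^ 2 * q ^ (3 - (M : ℝ) - κ * m)) + B * m * q ^ (-(κ * m))) * Real.sqrt q ^ m := by ring
  rw [e1]
  apply mul_le_mul_of_nonneg_right _ (by positivity)
  have e2 : 72 * B * (m : ℝ) ^ 2 * q ^ (3 - (M : ℝ) - κ * m) = 72 * (B * (m : ℝ) ^ 2 * q ^ (3 - (M : ℝ) - κ * m)) := by
    ring
  rw [e2]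
  linarith

end Pool.Agent.Q14.GE
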